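import Pool.Agent.Helper37.SU.Stmts

set_option autoImplicit false

/-! Module DC4: the blocks of a basis function are reproduced from their samples. -/

namespace Pool.Agent.Helper37.SU

open MeasureTheory Finset
open scoped ENNReal Classical

theorem dc4_one (hR : ST_RPR) (hD : ST_DKS) (b i i' : ℕ) (hb : 3 ≤ b) (u c : UnitAddCircle) :
    hk b i i' (u - c) = ∑ a ∈ range (b ^ i), hk b i i' (pt b i a - c) * ik b i (u - pt b i a) := by
  have hz : ∀ k : ℤ, ¬ (4 * |k| ≤ (b : ℤ) ^ i) → dkc b i k = 0 := by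
    intro k hk
    by_contra h
    rcases Nat.eq_zero_or_pos i with h0 | hpos
    · subst h0
      apply h
      unfold dkc
      rw [if_pos rfl]
    · have h1 := (hD b k (by omega)).2.2.1 i hpos h
      apply hk
      obtain ⟨j, rfl⟩ : ∃ j, i = j + 1 := ⟨i - 1, by omega⟩
      rw [Nat.add_sub_cancel] at h1
      rw [pow_succ]
      have h2 : (3 : ℤ) ≤ b := by exact_mod_cast hb
      have h3 : (0 : ℤ) < (b : ℤ) ^ j := by positivity
      nlinarith
  have key : ∀ v : UnitAddCircle, hk b i i' (v - c)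
      = ∑ k ∈ (Icc (-((b : ℤ) ^ i)) ((b : ℤ) ^ i)).filter (fun k => 4 * |k| ≤ (b : ℤ) ^ i),
        (((b : ℂ) ^ i')⁻¹ * ((dkc b i k * om ((k : ℝ) / (b : ℝ) ^ i') : ℝ) : ℂ)
          * fourier k (-c)) * (fourier k v : ℂ) := by
    intro v
    unfold hk
    rw [Finset.sum_filter]
    refine Finset.sum_congr rfl fun k _ => ?_
    split_ifs with h
    · have h1 : (fourier k (v - c) : ℂ) = fourier k v * fourier k (-c) := by
        rw [fourier_apply, fourier_apply, fourier_apply, sub_eq_add_neg, smul_add,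
          AddCircle.toCircle_add, Circle.coe_mul]
      rw [h1]
      ring
    · rw [hz k h]
      simp
  rw [key u, hR b i _ _ u (by omega) (fun k hk => (Finset.mem_filter.1 hk).2)]
  refine Finset.sum_congr rfl fun a _ => ?_
  rw [← key]

theorem st_DC4 (hR : ST_RPR) (hD : ST_DKS) : ST_DC4 := by
  intro b d s B t hb
  have h1 : ∏ i, hk b (s i) (B.1 i) (t i - pt b (B.1 i) (B.2 i))
      = ∏ i, ∑ a ∈ range (b ^ s i), hk b (s i) (B.1 i)
        (pt b (s i) a - pt b (B.1 i) (B.2 i)) * ik b (s i) (t i - pt b (s i) a) :=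
    Finset.prod_congr rfl fun i _ => dc4_one hR hD b (s i) (B.1 i) hb _ _
  rw [h1, Finset.prod_univ_sum]
  unfold gr
  refine Finset.sum_congr rfl fun a _ => ?_
  unfold Hm Phi
  rw [← Finset.prod_mul_distrib]

end Pool.Agent.Helper37.SU
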