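import Pool.Agent.Helper37.SU.Stmts

set_option autoImplicit false

/-! Module HKB: bounds for the convolved kernels. -/

namespace Pool.Agent.Helper37.SU

open MeasureTheory Finset
open scoped ENNReal Classical

theorem hkb_ev_pos (b j : ℕ) (t : UnitAddCircle) : 0 < ev b j t := by
  unfold ev
  have : 0 ≤ (b : ℝ) ^ j * ‖t‖ := by positivity
  positivity

theorem hkb_ev_one (b : ℕ) (t : UnitAddCircle) : 1 ≤ (1 + (b : ℝ)) ^ 2 * ev b 1 t := by
  unfold ev
  have h1 : ‖t‖ ≤ 1 := by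
    have h2 : ‖t‖ ≤ |(1 : ℝ)| / 2 := AddCircle.norm_le_half_period (p := (1 : ℝ)) one_ne_zero
    rw [abs_one] at h2
    linarith
  have h3 : (0 : ℝ) < (1 + (b : ℝ) ^ 1 * ‖t‖) ^ 2 := by positivity
  have hb : (0 : ℝ) ≤ (b : ℝ) := Nat.cast_nonneg _
  have h4 : (1 + (b : ℝ) ^ 1 * ‖t‖) ^ 2 ≤ (1 + (b : ℝ)) ^ 2 := by
    rw [pow_one]
    have h5 : (b : ℝ) * ‖t‖ ≤ b := by nlinarith [norm_nonneg t]
    have h6 : 0 ≤ (b : ℝ) * ‖t‖ := by positivity
    exact pow_le_pow_left₀ (by linarith) (by linarith) 2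
  rw [← div_eq_mul_inv, le_div_iff₀ h3, one_mul]
  exact h4

theorem hkb_dkc (b i : ℕ) (k : ℤ) : dkc b (i + 2) k
    = om ((k : ℝ) / (b : ℝ) ^ (i + 1)) - om ((k : ℝ) / (b : ℝ) ^ i) := by
  unfold dkc
  rw [if_neg (by omega), if_neg (by omega)]
  rfl

theorem st_HKB (hOM : ST_OM) (hKLP : ST_KLP) (hVPB : ST_VPB) : ST_HKB := by
  intro b hb
  obtain ⟨hsm, hone, hzero, hbd, -⟩ := hOM
  have hb1 : (1 : ℝ) ≤ b := by exact_mod_cast (by omega : 1 ≤ b)
  have hb3 : (3 : ℝ) ≤ b := by exact_mod_cast hb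
  have hb0 : (0 : ℝ) < b := by linarith
  obtain ⟨Cv, hCv, hv⟩ := hVPB b (by omega)
  -- the two functions
  let Ψ : ℕ → ℝ → ℂ := fun c ξ =>
    (((om ((b : ℝ) * ξ) - om ((b : ℝ) ^ 2 * ξ)) * om ((b : ℝ) ^ c * ξ) : ℝ) : ℂ)
  have hΨs : ∀ c, ContDiff ℝ 2 (Ψ c) := by
    intro c
    have h2 : ContDiff ℝ 2 om := hsm.of_le (WithTop.coe_le_coe.2 (le_top : (2 : ℕ∞) ≤ ⊤))
    have h3 : ∀ a : ℝ, ContDiff ℝ 2 (fun ξ : ℝ => om (a * ξ)) := fun a =>
      h2.comp (contDiff_const.mul contDiff_id)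
    have h4 : ContDiff ℝ 2 (fun ξ : ℝ => (om ((b : ℝ) * ξ) - om ((b : ℝ) ^ 2 * ξ))
        * om ((b : ℝ) ^ c * ξ)) := ((h3 _).sub (h3 _)).mul (h3 _)
    exact Complex.ofRealCLM.contDiff.comp h4
  have hΨz : ∀ c, ∀ ξ : ℝ, 1 ≤ |ξ| → Ψ c ξ = 0 := by
    intro c ξ hξ
    have h1 : om ((b : ℝ) * ξ) = 0 := by
      apply hzero
      rw [abs_mul, abs_of_pos hb0]
      nlinarith
    have h2 : om ((b : ℝ) ^ 2 * ξ) = 0 := by
      apply hzero
      rw [abs_mul, abs_of_pos (by positivity : (0 : ℝ) < (b : ℝ) ^ 2)]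
      nlinarith
    show (((om ((b : ℝ) * ξ) - om ((b : ℝ) ^ 2 * ξ)) * om ((b : ℝ) ^ c * ξ) : ℝ) : ℂ) = 0
    rw [h1, h2]
    simp
  obtain ⟨C1, hC1, hk1⟩ := hKLP (Ψ 1) (hΨs 1) (hΨz 1)
  obtain ⟨C2, hC2, hk2⟩ := hKLP (Ψ 2) (hΨs 2) (hΨz 2)
  refine ⟨(1 + (b : ℝ)) ^ 2 + Cv + (b : ℝ) ^ 2 * (C1 + C2), by positivity, ?_⟩
  intro i i' t
  have hevp := hkb_ev_pos b i t
  have hnn1 : (0 : ℝ) ≤ (1 + (b : ℝ)) ^ 2 := by positivity
  have hnn2 : (0 : ℝ) ≤ (b : ℝ) ^ 2 * (C1 + C2) := by positivity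
  have hinvp : (0 : ℝ) < ((b : ℝ) ^ (i' - i))⁻¹ := by positivity
  -- vanishing of dkc for small and large k
  match i, hevp, hinvp with
  | 0, hevp, hinvp =>
    have h0 : hk b 0 i' t = 0 := by
      unfold hk
      refine Finset.sum_eq_zero fun k _ => ?_
      have : dkc b 0 k = 0 := by unfold dkc; rw [if_pos rfl]
      rw [this]
      simp
    refine ⟨?_, fun h => by omega⟩
    rw [h0, norm_zero]
    positivity
  | 1, hevp, hinvp =>
    refine ⟨?_, fun h => by omega⟩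
    have h1 : hk b 1 i' t = ((b : ℂ) ^ i')⁻¹ := by
      unfold hk
      rw [Finset.sum_eq_single (0 : ℤ)]
      · have h2 : dkc b 1 0 = 1 := by
          unfold dkc
          rw [if_neg (by omega), if_pos rfl]
          apply hone
          simp
        have h3 : om (((0 : ℤ) : ℝ) / (b : ℝ) ^ i') = 1 := by
          apply hone
          simp
        rw [h2, h3]
        simp
      · intro k _ hk0
        have h2 : dkc b 1 k = 0 := by
          unfold dkc
          rw [if_neg (by omega), if_pos rfl]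
          apply hzero
          have h4 : (1 : ℝ) ≤ |(k : ℝ)| := by
            have h5 : 1 ≤ |k| := Int.one_le_abs hk0
            exact_mod_cast h5
          linarith
        rw [h2]
        simp
      · intro h
        exfalso
        apply h
        rw [Finset.mem_Icc]
        constructor
        · have : (0 : ℤ) ≤ (b : ℤ) ^ 1 := by positivity
          omega
        · positivity
    rw [h1, norm_inv, norm_pow, Complex.norm_natCast]
    have h2 : ((b : ℝ) ^ i')⁻¹ ≤ ((b : ℝ) ^ (i' - 1))⁻¹ := by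
      apply inv_anti₀ (by positivity)
      exact pow_le_pow_right₀ hb1 (by omega)
    have h3 := hkb_ev_one b t
    have h4 : ((b : ℝ) ^ (i' - 1))⁻¹ * 1
        ≤ ((b : ℝ) ^ (i' - 1))⁻¹ * (((1 + (b : ℝ)) ^ 2 + Cv + (b : ℝ) ^ 2 * (C1 + C2))
          * ev b 1 t) := by
      refine mul_le_mul_of_nonneg_left ?_ hinvp.le
      have h5 : 0 ≤ (Cv + (b : ℝ) ^ 2 * (C1 + C2)) * ev b 1 t := by positivity
      linarith
    linarith
  | i + 2, hevp, hinvp =>
    have hsup : ∀ k : ℤ, (3 / 4 : ℝ) * (b : ℝ) ^ (i + 1) ≤ |(k : ℝ)| → dkc b (i + 2) k = 0 := by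
      intro k hk
      rw [hkb_dkc, hzero, hzero, sub_zero]
      · rw [abs_div, abs_of_pos (by positivity : (0 : ℝ) < (b : ℝ) ^ i),
          le_div_iff₀ (by positivity)]
        have : (b : ℝ) ^ i ≤ (b : ℝ) ^ (i + 1) := pow_le_pow_right₀ hb1 (by omega)
        linarith
      · rw [abs_div, abs_of_pos (by positivity : (0 : ℝ) < (b : ℝ) ^ (i + 1)),
          le_div_iff₀ (by positivity)]
        exact hk
    have hinf : ∀ k : ℤ, |(k : ℝ)| ≤ (1 / 4 : ℝ) * (b : ℝ) ^ i → dkc b (i + 2) k = 0 := by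
      intro k hk
      rw [hkb_dkc, hone, hone, sub_self]
      · rw [abs_div, abs_of_pos (by positivity : (0 : ℝ) < (b : ℝ) ^ i),
          div_le_iff₀ (by positivity)]
        exact hk
      · rw [abs_div, abs_of_pos (by positivity : (0 : ℝ) < (b : ℝ) ^ (i + 1)),
          div_le_iff₀ (by positivity)]
        have : (b : ℝ) ^ i ≤ (b : ℝ) ^ (i + 1) := pow_le_pow_right₀ hb1 (by omega)
        linarith
    have hvan : i' + 3 ≤ i + 2 → hk b (i + 2) i' t = 0 := by
      intro hii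
      unfold hk
      refine Finset.sum_eq_zero fun k _ => ?_
      by_cases hk : |(k : ℝ)| ≤ (1 / 4 : ℝ) * (b : ℝ) ^ i
      · rw [hinf k hk]
        simp
      · have h1 : om ((k : ℝ) / (b : ℝ) ^ i') = 0 := by
          apply hzero
          rw [abs_div, abs_of_pos (by positivity : (0 : ℝ) < (b : ℝ) ^ i'),
            le_div_iff₀ (by positivity)]
          rw [not_le] at hk
          have h2 : (b : ℝ) ^ (i' + 1) ≤ (b : ℝ) ^ i := pow_le_pow_right₀ hb1 (by omega)
          rw [pow_succ] at h2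
          have h3 : (0 : ℝ) < (b : ℝ) ^ i' := by positivity
          nlinarith
        rw [h1]
        simp
    refine ⟨?_, hvan⟩
    rcases Nat.lt_or_ge (i' + 2) (i + 2) with hlt | hge
    · rw [hvan (by omega), norm_zero]
      positivity
    · rcases Nat.lt_or_ge i' (i + 2) with hlt2 | hge2
      · -- i + 2 = i' + 1 or i' + 2
        obtain ⟨c, hc⟩ : ∃ c, i + 2 = i' + c := ⟨i + 2 - i', by omega⟩
        have hc12 : c = 1 ∨ c = 2 := by omega
        have hsum : hk b (i + 2) i' t = ((b : ℂ) ^ i')⁻¹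
            * ∑ k ∈ Icc (-((b ^ (i + 2) : ℕ) : ℤ)) ((b ^ (i + 2) : ℕ) : ℤ),
              Ψ c ((k : ℝ) / ((b ^ (i + 2) : ℕ) : ℝ)) * (fourier k t : ℂ) := by
          unfold hk
          rw [Finset.mul_sum]
          have hIcc : Icc (-((b : ℤ) ^ (i + 2))) ((b : ℤ) ^ (i + 2))
              = Icc (-((b ^ (i + 2) : ℕ) : ℤ)) ((b ^ (i + 2) : ℕ) : ℤ) := by
            push_cast
            rfl
          rw [hIcc]
          refine Finset.sum_congr rfl fun k _ => ?_
          rw [mul_assoc, ← mul_assoc ((b : ℂ) ^ i')⁻¹]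
          rw [mul_assoc ((b : ℂ) ^ i')⁻¹]
          congr 2
          rw [hkb_dkc]
          show _ = (((om ((b : ℝ) * ((k : ℝ) / ((b ^ (i + 2) : ℕ) : ℝ)))
            - om ((b : ℝ) ^ 2 * ((k : ℝ) / ((b ^ (i + 2) : ℕ) : ℝ))))
            * om ((b : ℝ) ^ c * ((k : ℝ) / ((b ^ (i + 2) : ℕ) : ℝ))) : ℝ) : ℂ)
          have e1 : (b : ℝ) * ((k : ℝ) / ((b ^ (i + 2) : ℕ) : ℝ))
              = (k : ℝ) / (b : ℝ) ^ (i + 1) := by
            push_cast
            field_simp
            ring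
          have e2 : (b : ℝ) ^ 2 * ((k : ℝ) / ((b ^ (i + 2) : ℕ) : ℝ))
              = (k : ℝ) / (b : ℝ) ^ i := by
            push_cast
            field_simp
            ring
          have e3 : (b : ℝ) ^ c * ((k : ℝ) / ((b ^ (i + 2) : ℕ) : ℝ))
              = (k : ℝ) / (b : ℝ) ^ i' := by
            push_cast
            rw [hc, pow_add]
            field_simp
          rw [e1, e2, e3]
        have hM : 1 ≤ b ^ (i + 2) := Nat.one_le_pow _ _ (by omega)
        have hbound : ‖∑ k ∈ Icc (-((b ^ (i + 2) : ℕ) : ℤ)) ((b ^ (i + 2) : ℕ) : ℤ),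
              Ψ c ((k : ℝ) / ((b ^ (i + 2) : ℕ) : ℝ)) * (fourier k t : ℂ)‖
            ≤ (C1 + C2) * (b : ℝ) ^ (i + 2) * ev b (i + 2) t := by
          have hev : ((1 + ((b ^ (i + 2) : ℕ) : ℝ) * ‖t‖) ^ 2)⁻¹ = ev b (i + 2) t := by
            unfold ev
            push_cast
            rfl
          have hcast : ((b ^ (i + 2) : ℕ) : ℝ) = (b : ℝ) ^ (i + 2) := by push_cast; rfl
          have hp : 0 ≤ (b : ℝ) ^ (i + 2) * ev b (i + 2) t := by positivity
          rcases hc12 with rfl | rfl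
          · have h := (hk1 (b ^ (i + 2)) t t hM).1
            rw [hev] at h
            refine h.trans ?_
            rw [hcast]
            nlinarith
          · have h := (hk2 (b ^ (i + 2)) t t hM).1
            rw [hev] at h
            refine h.trans ?_
            rw [hcast]
            nlinarith
        rw [hsum, norm_mul, norm_inv, norm_pow, Complex.norm_natCast]
        have h0 : i' - (i + 2) = 0 := by omega
        rw [h0, pow_zero, inv_one, mul_one]
        have h1 : ((b : ℝ) ^ i')⁻¹ * (b : ℝ) ^ (i + 2) ≤ (b : ℝ) ^ 2 := by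
          rw [hc, pow_add, ← mul_assoc, inv_mul_cancel₀ (by positivity), one_mul]
          exact pow_le_pow_right₀ hb1 (by omega)
        have h2 : ((b : ℝ) ^ i')⁻¹ * ‖∑ k ∈ Icc (-((b ^ (i + 2) : ℕ) : ℤ))
              ((b ^ (i + 2) : ℕ) : ℤ),
              Ψ c ((k : ℝ) / ((b ^ (i + 2) : ℕ) : ℝ)) * (fourier k t : ℂ)‖
            ≤ ((b : ℝ) ^ i')⁻¹ * ((C1 + C2) * (b : ℝ) ^ (i + 2) * ev b (i + 2) t) :=
          mul_le_mul_of_nonneg_left hbound (by positivity)
        have h3 : ((b : ℝ) ^ i')⁻¹ * ((C1 + C2) * (b : ℝ) ^ (i + 2) * ev b (i + 2) t)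
            = (((b : ℝ) ^ i')⁻¹ * (b : ℝ) ^ (i + 2)) * ((C1 + C2) * ev b (i + 2) t) := by ring
        have h4 : (((b : ℝ) ^ i')⁻¹ * (b : ℝ) ^ (i + 2)) * ((C1 + C2) * ev b (i + 2) t)
            ≤ (b : ℝ) ^ 2 * ((C1 + C2) * ev b (i + 2) t) :=
          mul_le_mul_of_nonneg_right h1 (by positivity)
        have h5 : 0 ≤ ((1 + (b : ℝ)) ^ 2 + Cv) * ev b (i + 2) t := by positivity
        nlinarith
      · -- i + 2 ≤ i'
        have hsum : hk b (i + 2) i' t = ((b : ℂ) ^ i')⁻¹ * dk b (i + 2) t := by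
          unfold hk dk
          rw [Finset.mul_sum]
          refine Finset.sum_congr rfl fun k _ => ?_
          rw [mul_assoc]
          congr 2
          by_cases hk : (3 / 4 : ℝ) * (b : ℝ) ^ (i + 1) ≤ |(k : ℝ)|
          · rw [hsup k hk, zero_mul]
          · rw [not_le] at hk
            have h1 : om ((k : ℝ) / (b : ℝ) ^ i') = 1 := by
              apply hone
              rw [abs_div, abs_of_pos (by positivity : (0 : ℝ) < (b : ℝ) ^ i'),
                div_le_iff₀ (by positivity)]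
              have h2 : (b : ℝ) ^ (i + 2) ≤ (b : ℝ) ^ i' := pow_le_pow_right₀ hb1 hge2
              rw [pow_succ] at h2
              have h3 : (0 : ℝ) < (b : ℝ) ^ (i + 1) := by positivity
              nlinarith
            rw [h1, mul_one]
        rw [hsum, norm_mul, norm_inv, norm_pow, Complex.norm_natCast]
        have h1 := (hv (i + 2) t t).2.1
        have h2 : ((b : ℝ) ^ i')⁻¹ * ‖dk b (i + 2) t‖
            ≤ ((b : ℝ) ^ i')⁻¹ * (Cv * (b : ℝ) ^ (i + 2) * ev b (i + 2) t) :=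
          mul_le_mul_of_nonneg_left h1 (by positivity)
        have h3 : ((b : ℝ) ^ i')⁻¹ * (b : ℝ) ^ (i + 2) = ((b : ℝ) ^ (i' - (i + 2)))⁻¹ := by
          have h4 : (b : ℝ) ^ i' = (b : ℝ) ^ (i' - (i + 2)) * (b : ℝ) ^ (i + 2) := by
            rw [← pow_add]
            congr 1
            omega
          rw [h4]
          field_simp
        have h5 : ((b : ℝ) ^ i')⁻¹ * (Cv * (b : ℝ) ^ (i + 2) * ev b (i + 2) t)
            = Cv * ((b : ℝ) ^ (i' - (i + 2)))⁻¹ * ev b (i + 2) t := by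
          rw [← h3]
          ring
        have h6 : 0 ≤ ((1 + (b : ℝ)) ^ 2 + (b : ℝ) ^ 2 * (C1 + C2))
            * ((b : ℝ) ^ (i' - (i + 2)))⁻¹ * ev b (i + 2) t := by positivity
        nlinarith

end Pool.Agent.Helper37.SU
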