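import Pool.Agent.Helper37.SU.Stmts

set_option autoImplicit false

/-! Module NTA: digit functions of a net. -/

namespace Pool.Agent.Helper37.SU

open MeasureTheory Finset Polynomial
open scoped ENNReal Classical

theorem nta_inj (b d m : ℕ) [Fact b.Prime] (hd : d ≤ b) (s : Fin d → ℕ) (hs : ∑ i, s i = m)
    (q : (ZMod b)[X]) (hq : q ∈ degreeLT (ZMod b) m)
    (h : ∀ i : Fin d, ∀ k < s i, (taylor (((i : ℕ) : ZMod b)) q).coeff k = 0) : q = 0 := by
  have hα : Function.Injective (fun i : Fin d => (((i : ℕ) : ZMod b))) := by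
    intro i j hij
    have h1 : ((i : ℕ) : ZMod b) = ((j : ℕ) : ZMod b) := hij
    rw [ZMod.natCast_eq_natCast_iff'] at h1
    rw [Nat.mod_eq_of_lt (lt_of_lt_of_le i.2 hd), Nat.mod_eq_of_lt (lt_of_lt_of_le j.2 hd)] at h1
    exact Fin.ext h1
  have hdvd : ∀ i ∈ (Finset.univ : Finset (Fin d)),
      (X - C (((i : ℕ) : ZMod b))) ^ (s i) ∣ q := by
    intro i _
    rw [Polynomial.X_sub_C_pow_dvd_iff]
    have h1 : q.comp (X + C (((i : ℕ) : ZMod b))) = taylor (((i : ℕ) : ZMod b)) q := rfl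
    rw [h1, Polynomial.X_pow_dvd_iff]
    intro k hk
    exact h i k hk
  have hcop : (↑(Finset.univ : Finset (Fin d)) : Set (Fin d)).Pairwise
      (Function.onFun IsCoprime fun i : Fin d => (X - C (((i : ℕ) : ZMod b))) ^ (s i)) := by
    intro i _ j _ hij
    have h1 := Polynomial.pairwise_coprime_X_sub_C hα hij
    exact IsCoprime.pow h1
  have hprod := Finset.prod_dvd_of_coprime hcop hdvd
  apply Polynomial.eq_zero_of_dvd_of_degree_lt hprod
  have hmon : (∏ i : Fin d, (X - C (((i : ℕ) : ZMod b))) ^ (s i)).Monic :=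
    Polynomial.monic_prod_of_monic _ _ fun i _ => (Polynomial.monic_X_sub_C _).pow _
  have hdeg : (∏ i : Fin d, (X - C (((i : ℕ) : ZMod b))) ^ (s i)).natDegree = m := by
    rw [Polynomial.natDegree_prod_of_monic _ _
      fun i _ => (Polynomial.monic_X_sub_C _).pow _, ← hs]
    refine Finset.sum_congr rfl fun i _ => ?_
    rw [(Polynomial.monic_X_sub_C _).natDegree_pow, Polynomial.natDegree_X_sub_C, mul_one]
  rw [Polynomial.degree_eq_natDegree hmon.ne_zero, hdeg]
  exact Polynomial.mem_degreeLT.1 hq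

theorem st_NTA : ST_NTA := by
  intro b d m hb hd
  haveI : Fact b.Prime := ⟨hb⟩
  haveI : NeZero b := ⟨hb.ne_zero⟩
  have hcard : Fintype.card (Fin (b ^ m)) = Fintype.card (Fin m → ZMod b) := by
    rw [Fintype.card_fin, Fintype.card_fun, ZMod.card, Fintype.card_fin]
  let E : Fin (b ^ m) ≃ (Fin m → ZMod b) := Fintype.equivOfCardEq hcard
  let Q : (Fin m → ZMod b) ≃ₗ[ZMod b] degreeLT (ZMod b) m := (degreeLTEquiv (ZMod b) m).symm
  refine ⟨fun p i k => ((taylor (((i : ℕ) : ZMod b)) (Q (E p) : (ZMod b)[X])).coeff k).val,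
    fun p i k => ZMod.val_lt _, ?_⟩
  intro s hs e he
  let T : (Fin m → ZMod b) → ((Σ i : Fin d, Fin (s i)) → ZMod b) := fun c x =>
    (taylor (((x.1 : ℕ) : ZMod b)) (Q c : (ZMod b)[X])).coeff (x.2 : ℕ)
  have hTinj : Function.Injective T := by
    intro c c' hcc
    have h1 : (Q (c - c') : (ZMod b)[X]) = 0 := by
      apply nta_inj b d m hd s hs _ (Q (c - c')).2
      intro i k hk
      have h2 := congrFun hcc ⟨i, ⟨k, hk⟩⟩
      have h3 : (taylor (((i : ℕ) : ZMod b)) (Q c : (ZMod b)[X])).coeff k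
          = (taylor (((i : ℕ) : ZMod b)) (Q c' : (ZMod b)[X])).coeff k := h2
      rw [map_sub, Submodule.coe_sub, map_sub, Polynomial.coeff_sub, h3, sub_self]
    have h2 : Q (c - c') = 0 := by
      apply Subtype.ext
      rw [h1]
      rfl
    rw [LinearEquiv.map_eq_zero_iff] at h2
    exact sub_eq_zero.1 h2
  have hTcard : Fintype.card (Fin m → ZMod b)
      = Fintype.card ((Σ i : Fin d, Fin (s i)) → ZMod b) := by
    rw [Fintype.card_fun, Fintype.card_fun, Fintype.card_sigma, Fintype.card_fin]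
    simp only [Fintype.card_fin, hs]
  have hTbij : Function.Bijective T :=
    (Fintype.bijective_iff_injective_and_card T).2 ⟨hTinj, hTcard⟩
  obtain ⟨c, hc⟩ := hTbij.2 (fun x => ((e x.1 x.2 : ℕ) : ZMod b))
  refine ⟨E.symm c, ?_, ?_⟩
  · intro i k hk
    have h1 := congrFun hc ⟨i, ⟨k, hk⟩⟩
    have h2 : (taylor (((i : ℕ) : ZMod b)) (Q c : (ZMod b)[X])).coeff k
        = ((e i k : ℕ) : ZMod b) := h1
    show ((taylor (((i : ℕ) : ZMod b)) (Q (E (E.symm c)) : (ZMod b)[X])).coeff k).val = e i k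
    rw [Equiv.apply_symm_apply, h2, ZMod.val_natCast, Nat.mod_eq_of_lt (he i k)]
  · intro p hp
    have h1 : T (E p) = T c := by
      rw [hc]
      funext x
      have h2 := hp x.1 x.2 x.2.2
      show (taylor (((x.1 : ℕ) : ZMod b)) (Q (E p) : (ZMod b)[X])).coeff (x.2 : ℕ) = _
      rw [← h2, ZMod.natCast_zmod_val]
    have h2 : E p = c := hTinj h1
    rw [← h2, Equiv.symm_apply_apply]

end Pool.Agent.Helper37.SU
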