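import Pool.Agent.Helper37.SU.Stmts

set_option autoImplicit false

/-! Module SHR: few pairs of points share boxes. -/

namespace Pool.Agent.Helper37.SU

open MeasureTheory Finset
open scoped ENNReal Classical

/-- The points of `F` in the same box of shape `s`. -/
noncomputable def shrA {b d m : ℕ} (x : Fin (b ^ m) → TT d) (F : Finset (Fin (b ^ m)))
    (s : Fin d → ℕ) (p : Fin (b ^ m)) : Finset (Fin (b ^ m)) :=
  F.filter (fun p' => ∀ i, ix b (s i) (x p' i) = ix b (s i) (x p i))

/-- The points of `F` in the same strip. -/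
noncomputable def shrT {b d m : ℕ} (x : Fin (b ^ m) → TT d) (F : Finset (Fin (b ^ m)))
    (i : Fin d) (j : ℕ) (p : Fin (b ^ m)) : Finset (Fin (b ^ m)) :=
  F.filter (fun p' => ix b j (x p' i) = ix b j (x p i))

theorem shr_key (hIX : ST_IXB) {b d m l : ℕ} (hb : 2 ≤ b) (x : Fin (b ^ m) → TT d)
    (hx : IsNet b d m x) (F : Finset (Fin (b ^ m))) (s : Fin d → ℕ) (hs : ∑ i, s i = l)
    (hlm : l ≤ m) (i : Fin d) :
    ∑ p ∈ F, ((shrA x F s p).card : ℝ) * (shrT x F i (s i + (m - l)) p).card
      / (shrT x F i (s i) p).card ≤ F.card := by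
  obtain ⟨hI1, hI2, -⟩ := hIX b hb
  have hmaps : ∀ p ∈ F, ix b (s i) (x p i) ∈ range (b ^ s i) := fun p _ =>
    mem_range.2 (hI1 _ _)
  rw [← Finset.sum_fiberwise_of_maps_to hmaps, Finset.card_eq_sum_card_fiberwise hmaps,
    Nat.cast_sum]
  refine Finset.sum_le_sum fun c _ => ?_
  set P := F.filter (fun p => ix b (s i) (x p i) = c) with hP
  have hT : ∀ p ∈ P, shrT x F i (s i) p = P := by
    intro p hp
    rw [hP, Finset.mem_filter] at hp
    unfold shrT
    rw [hP, hp.2]
  have hnat : ∑ p ∈ P, (shrA x F s p).card * (shrT x F i (s i + (m - l)) p).card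
      ≤ P.card * P.card := by
    have h1 : ∑ p ∈ P, (shrA x F s p).card * (shrT x F i (s i + (m - l)) p).card
        = (P.sigma (fun p => shrA x F s p ×ˢ shrT x F i (s i + (m - l)) p)).card := by
      rw [Finset.card_sigma]
      exact Finset.sum_congr rfl fun p _ => (Finset.card_product _ _).symm
    rw [h1, ← Finset.card_product]
    refine Finset.card_le_card_of_injOn (fun q => q.2) ?_ ?_
    · intro q hq
      rw [Finset.mem_coe, Finset.mem_sigma, Finset.mem_product] at hq
      obtain ⟨hqP, hqA, hqB⟩ := hq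
      unfold shrA at hqA
      unfold shrT at hqB
      rw [Finset.mem_filter] at hqA hqB
      rw [hP, Finset.mem_filter] at hqP
      rw [Finset.mem_coe, Finset.mem_product, hP, Finset.mem_filter, Finset.mem_filter]
      refine ⟨⟨hqA.1, (hqA.2 i).trans hqP.2⟩, hqB.1, ?_⟩
      rw [hI2 (s i) (m - l) (x q.2.2 i), hqB.2, ← hI2 (s i) (m - l), hqP.2]
    · intro q hq q' hq' hqq
      have hqq' : q.2 = q'.2 := hqq
      rw [Finset.mem_coe, Finset.mem_sigma, Finset.mem_product] at hq hq'
      obtain ⟨hqP, hqA, hqB⟩ := hq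
      obtain ⟨hqP', hqA', hqB'⟩ := hq'
      unfold shrA at hqA hqA'
      unfold shrT at hqB hqB'
      rw [Finset.mem_filter] at hqA hqB hqA' hqB'
      -- the box of shape update s i (s i + w)
      have hsum : ∑ k, Function.update s i (s i + (m - l)) k = m := by
        rw [Finset.sum_update_of_mem (Finset.mem_univ i)]
        have h2 := Finset.add_sum_erase Finset.univ s (Finset.mem_univ i)
        rw [Finset.erase_eq] at h2
        omega
      have hbox := hx (Function.update s i (s i + (m - l)),
        fun k => ix b (Function.update s i (s i + (m - l)) k) (x q.1 k))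
        (by show ∑ k, Function.update s i (s i + (m - l)) k ≤ m; exact hsum.le)
        (fun k => hI1 _ _)
      have hone : (univ.filter (fun p => inB b (Function.update s i (s i + (m - l)),
        fun k => ix b (Function.update s i (s i + (m - l)) k) (x q.1 k)) (x p))).card = 1 := by
        rw [hbox]
        show b ^ (m - ∑ k, Function.update s i (s i + (m - l)) k) = 1
        rw [hsum, Nat.sub_self, pow_zero]
      obtain ⟨a, ha⟩ := Finset.card_eq_one.1 hone
      have hm1 : q.1 ∈ univ.filter (fun p => inB b (Function.update s i (s i + (m - l)),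
        fun k => ix b (Function.update s i (s i + (m - l)) k) (x q.1 k)) (x p)) := by
        rw [Finset.mem_filter]
        exact ⟨Finset.mem_univ _, fun k => rfl⟩
      have hm2 : q'.1 ∈ univ.filter (fun p => inB b (Function.update s i (s i + (m - l)),
        fun k => ix b (Function.update s i (s i + (m - l)) k) (x q.1 k)) (x p)) := by
        rw [Finset.mem_filter]
        refine ⟨Finset.mem_univ _, fun k => ?_⟩
        show ix b (Function.update s i (s i + (m - l)) k) (x q'.1 k)
          = ix b (Function.update s i (s i + (m - l)) k) (x q.1 k)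
        by_cases hk : k = i
        · subst hk
          rw [Function.update_self, ← hqB.2, ← hqB'.2, hqq']
        · rw [Function.update_of_ne hk, ← hqA.2 k, ← hqA'.2 k, hqq']
      rw [ha, Finset.mem_singleton] at hm1 hm2
      have h3 : q.1 = q'.1 := hm1.trans hm2.symm
      obtain ⟨q1, q2⟩ := q
      obtain ⟨q1', q2'⟩ := q'
      simp only at h3 hqq'
      subst h3
      subst hqq'
      rfl
  rcases Nat.eq_zero_or_pos P.card with h0 | hpos
  · rw [Finset.card_eq_zero] at h0
    rw [h0]
    simp
  · have hP0 : (0 : ℝ) < P.card := by exact_mod_cast hpos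
    have h1 : ∑ p ∈ P, ((shrA x F s p).card : ℝ) * (shrT x F i (s i + (m - l)) p).card
        / (shrT x F i (s i) p).card
        = (∑ p ∈ P, ((shrA x F s p).card : ℝ) * (shrT x F i (s i + (m - l)) p).card)
          / P.card := by
      rw [Finset.sum_div]
      exact Finset.sum_congr rfl fun p hp => by rw [hT p hp]
    rw [h1, div_le_iff₀ hP0]
    exact_mod_cast hnat

/-- A telescoping bound. -/
theorem shr_tel (t : ℕ → ℝ) (L w : ℕ) (A M : ℝ) (hA : 1 < A) (h1 : ∀ j, 1 ≤ t j)
    (hM : t 0 ≤ M) (ht : ∀ j k, j ≤ k → t k ≤ t j) :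
    (((range L).filter (fun j => A * t (j + w) < t j)).card : ℝ)
      ≤ (w : ℝ) * (Real.log M / Real.log A) := by
  have hlA : 0 < Real.log A := Real.log_pos hA
  have hg0 : ∀ j, 0 ≤ Real.log (t j) := fun j => Real.log_nonneg (h1 j)
  have hgM : ∀ j, Real.log (t j) ≤ Real.log M := fun j =>
    Real.log_le_log (by linarith [h1 j]) ((ht 0 j (Nat.zero_le _)).trans hM)
  have hsum : (((range L).filter (fun j => A * t (j + w) < t j)).card : ℝ) * Real.log A
      ≤ ∑ j ∈ range L, (Real.log (t j) - Real.log (t (j + w))) := by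
    have h2 : (((range L).filter (fun j => A * t (j + w) < t j)).card : ℝ) * Real.log A
        ≤ ∑ j ∈ (range L).filter (fun j => A * t (j + w) < t j),
          (Real.log (t j) - Real.log (t (j + w))) := by
      rw [← nsmul_eq_mul]
      refine Finset.card_nsmul_le_sum _ _ _ fun j hj => ?_
      rw [Finset.mem_filter] at hj
      have h3 : (0 : ℝ) < t (j + w) := by linarith [h1 (j + w)]
      have h4 : Real.log (A * t (j + w)) ≤ Real.log (t j) :=
        Real.log_le_log (mul_pos (by linarith) h3) hj.2.le
      rw [Real.log_mul (by linarith) h3.ne'] at h4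
      linarith
    refine h2.trans (Finset.sum_le_sum_of_subset_of_nonneg (Finset.filter_subset _ _) ?_)
    intro j _ _
    have h5 : Real.log (t (j + w)) ≤ Real.log (t j) :=
      Real.log_le_log (by linarith [h1 (j + w)]) (ht j (j + w) (Nat.le_add_right _ _))
    linarith
  have htel : ∑ j ∈ range L, (Real.log (t j) - Real.log (t (j + w))) ≤ w * Real.log M := by
    rw [Finset.sum_sub_distrib]
    have h6 := Finset.sum_range_add (fun j => Real.log (t j)) L w
    have h7 := Finset.sum_range_add (fun j => Real.log (t j)) w L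
    rw [Nat.add_comm w L, h6] at h7
    have h8 : ∑ j ∈ range L, Real.log (t (j + w)) = ∑ j ∈ range L, Real.log (t (w + j)) :=
      Finset.sum_congr rfl fun j _ => by rw [Nat.add_comm]
    have h9 : 0 ≤ ∑ j ∈ range w, Real.log (t (L + j)) :=
      Finset.sum_nonneg fun j _ => hg0 _
    have h10 : ∑ j ∈ range w, Real.log (t j) ≤ ∑ _j ∈ range w, Real.log M :=
      Finset.sum_le_sum fun j _ => hgM j
    rw [Finset.sum_const, card_range, nsmul_eq_mul] at h10
    rw [h8]
    linarith
  rw [← mul_div_assoc, le_div_iff₀ hlA]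
  exact hsum.trans htel

theorem st_SHR (hIX : ST_IXB) : ST_SHR := by
  intro b d m l x F A hb hd hlm hx hA hF
  obtain ⟨e, rfl⟩ : ∃ e, d = e + 1 := ⟨d - 1, by omega⟩
  obtain ⟨hI1, hI2, -⟩ := hIX b hb
  have hA0 : 0 < A := by linarith
  -- monotonicity
  have hTself : ∀ (i : Fin (e + 1)) (j : ℕ) (p), p ∈ F → p ∈ shrT x F i j p := fun i j p hp =>
    Finset.mem_filter.2 ⟨hp, rfl⟩
  have hT1 : ∀ (i : Fin (e + 1)) (j : ℕ) (p), p ∈ F → (1 : ℝ) ≤ (shrT x F i j p).card := by
    intro i j p hp
    exact_mod_cast Finset.card_pos.2 ⟨p, hTself i j p hp⟩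
  have hTanti : ∀ (i : Fin (e + 1)) (p) (j k : ℕ), j ≤ k →
      ((shrT x F i k p).card : ℝ) ≤ (shrT x F i j p).card := by
    intro i p j k hjk
    obtain ⟨c, rfl⟩ := Nat.exists_eq_add_of_le hjk
    have h1 : shrT x F i (j + c) p ⊆ shrT x F i j p := by
      intro q hq
      unfold shrT at hq ⊢
      rw [Finset.mem_filter] at hq ⊢
      refine ⟨hq.1, ?_⟩
      rw [hI2 j c (x q i), hq.2, ← hI2 j c]
    exact_mod_cast Finset.card_le_card h1
  have hT0 : ∀ (i : Fin (e + 1)) (p), ((shrT x F i 0 p).card : ℝ) ≤ F.card := by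
    intro i p
    exact_mod_cast Finset.card_le_card (Finset.filter_subset _ _)
  -- membership in shp
  have hshp : ∀ s ∈ shp (e + 1) l, ∑ i, s i = l := fun s hs => (Finset.mem_filter.1 hs).2
  have hshp2 : ∀ s ∈ shp (e + 1) l, ∀ i, s i ≤ l := by
    intro s hs i
    have := hshp s hs
    rw [← this]
    exact Finset.single_le_sum (fun _ _ => Nat.zero_le _) (Finset.mem_univ i)
  -- hot pairs
  let hot : (Fin (e + 1) → ℕ) → Fin (b ^ m) → Prop := fun s p => ∀ i : Fin e,
    A * (shrT x F i.castSucc (s i.castSucc + (m - l)) p).card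
      < (shrT x F i.castSucc (s i.castSucc) p).card
  -- bound for one pair
  have hpair : ∀ s ∈ shp (e + 1) l, ∀ p ∈ F, ((shrA x F s p).card : ℝ)
      ≤ (∑ i : Fin e, A * (((shrA x F s p).card : ℝ)
          * (shrT x F i.castSucc (s i.castSucc + (m - l)) p).card
          / (shrT x F i.castSucc (s i.castSucc) p).card))
        + (if hot s p then (b : ℝ) ^ (m - l) else 0) := by
    intro s hs p hp
    have hnn : ∀ i : Fin e, 0 ≤ A * (((shrA x F s p).card : ℝ)
          * (shrT x F i.castSucc (s i.castSucc + (m - l)) p).card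
          / (shrT x F i.castSucc (s i.castSucc) p).card) := fun i => by positivity
    by_cases hh : hot s p
    · rw [if_pos hh]
      have h1 : ((shrA x F s p).card : ℝ) ≤ (b : ℝ) ^ (m - l) := by
        have h2 := hx (s, fun k => ix b (s k) (x p k))
          (by show ∑ k, s k ≤ m; rw [hshp s hs]; exact hlm) (fun k => hI1 _ _)
        have h3 : (shrA x F s p) ⊆ univ.filter (fun q => inB b (s, fun k => ix b (s k) (x p k))
            (x q)) := by
          intro q hq
          unfold shrA at hq
          rw [Finset.mem_filter] at hq ⊢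
          exact ⟨Finset.mem_univ _, fun k => hq.2 k⟩
        have h4 := Finset.card_le_card h3
        rw [h2] at h4
        have h5 : b ^ (m - ∑ k, s k) = b ^ (m - l) := by rw [hshp s hs]
        have h6 : (shrA x F s p).card ≤ b ^ (m - l) := h5 ▸ h4
        exact_mod_cast h6
      have h7 : 0 ≤ ∑ i : Fin e, A * (((shrA x F s p).card : ℝ)
          * (shrT x F i.castSucc (s i.castSucc + (m - l)) p).card
          / (shrT x F i.castSucc (s i.castSucc) p).card) := Finset.sum_nonneg fun i _ => hnn i
      linarith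
    · rw [if_neg hh, add_zero]
      have hex : ∃ i : Fin e, ¬ (A * (shrT x F i.castSucc (s i.castSucc + (m - l)) p).card
          < (shrT x F i.castSucc (s i.castSucc) p).card) := by
        by_contra hno
        apply hh
        intro i
        by_contra h
        exact hno ⟨i, h⟩
      obtain ⟨i, hi⟩ := hex
      rw [not_lt] at hi
      have h1 : ((shrA x F s p).card : ℝ) ≤ A * (((shrA x F s p).card : ℝ)
          * (shrT x F i.castSucc (s i.castSucc + (m - l)) p).card
          / (shrT x F i.castSucc (s i.castSucc) p).card) := by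
        have hpos : (0 : ℝ) < (shrT x F i.castSucc (s i.castSucc) p).card := by
          linarith [hT1 i.castSucc (s i.castSucc) p hp]
        rw [mul_div_assoc', le_div_iff₀ hpos]
        have h2 : (0 : ℝ) ≤ (shrA x F s p).card := Nat.cast_nonneg _
        nlinarith
      exact h1.trans (Finset.single_le_sum (f := fun i : Fin e =>
        A * (((shrA x F s p).card : ℝ)
          * (shrT x F i.castSucc (s i.castSucc + (m - l)) p).card
          / (shrT x F i.castSucc (s i.castSucc) p).card)) (fun i _ => hnn i)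
        (Finset.mem_univ i))
  -- the number of hot shapes
  have hhot : ∀ p ∈ F, (((shp (e + 1) l).filter (fun s => hot s p)).card : ℝ)
      ≤ (((m - l : ℕ) : ℝ) * (Real.log F.card / Real.log A)) ^ e := by
    intro p hp
    let J : Fin e → Finset ℕ := fun i => (range (l + 1)).filter (fun j =>
      A * ((shrT x F i.castSucc (j + (m - l)) p).card : ℝ) < (shrT x F i.castSucc j p).card)
    have h1 : ((shp (e + 1) l).filter (fun s => hot s p)).card
        ≤ (Fintype.piFinset J).card := by
      refine Finset.card_le_card_of_injOn (fun s i => s i.castSucc) ?_ ?_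
      · intro s hs
        rw [Finset.mem_coe, Finset.mem_filter] at hs
        rw [Finset.mem_coe, Fintype.mem_piFinset]
        intro i
        rw [Finset.mem_filter, Finset.mem_range]
        exact ⟨Nat.lt_succ_of_le (hshp2 s hs.1 _), hs.2 i⟩
      · intro s hs s' hs' hss
        rw [Finset.mem_coe, Finset.mem_filter] at hs hs'
        have h2 := hshp s hs.1
        have h3 := hshp s' hs'.1
        rw [Fin.sum_univ_castSucc] at h2 h3
        have h4 : ∀ i : Fin e, s i.castSucc = s' i.castSucc := fun i => congrFun hss i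
        have h5 : ∑ i : Fin e, s i.castSucc = ∑ i : Fin e, s' i.castSucc :=
          Finset.sum_congr rfl fun i _ => h4 i
        funext k
        refine Fin.lastCases ?_ (fun i => h4 i) k
        omega
    have h2 : ((Fintype.piFinset J).card : ℝ)
        ≤ (((m - l : ℕ) : ℝ) * (Real.log F.card / Real.log A)) ^ e := by
      rw [Fintype.card_piFinset, Nat.cast_prod]
      have h3 : ∀ i ∈ (Finset.univ : Finset (Fin e)), ((J i).card : ℝ)
          ≤ ((m - l : ℕ) : ℝ) * (Real.log F.card / Real.log A) := fun i _ =>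
        shr_tel (fun j => ((shrT x F i.castSucc j p).card : ℝ)) (l + 1) (m - l) A F.card hA
          (fun j => hT1 _ j p hp) (hT0 _ p) (fun j k hjk => hTanti _ p j k hjk)
      have h4 := Finset.prod_le_prod (s := (Finset.univ : Finset (Fin e)))
        (fun i _ => Nat.cast_nonneg _) h3
      rw [Finset.prod_const, Finset.card_univ, Fintype.card_fin] at h4
      exact h4
    have h1' : (((shp (e + 1) l).filter (fun s => hot s p)).card : ℝ)
        ≤ ((Fintype.piFinset J).card : ℝ) := by exact_mod_cast h1
    exact h1'.trans h2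
  -- summation
  have hsum1 : ∑ s ∈ shp (e + 1) l, ∑ p ∈ F, ((shrA x F s p).card : ℝ)
      ≤ (∑ s ∈ shp (e + 1) l, ∑ p ∈ F, ∑ i : Fin e, A * (((shrA x F s p).card : ℝ)
          * (shrT x F i.castSucc (s i.castSucc + (m - l)) p).card
          / (shrT x F i.castSucc (s i.castSucc) p).card))
        + ∑ s ∈ shp (e + 1) l, ∑ p ∈ F, (if hot s p then (b : ℝ) ^ (m - l) else 0) := by
    rw [← Finset.sum_add_distrib]
    refine Finset.sum_le_sum fun s hs => ?_
    rw [← Finset.sum_add_distrib]
    exact Finset.sum_le_sum fun p hp => hpair s hs p hp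
  have hcold : (∑ s ∈ shp (e + 1) l, ∑ p ∈ F, ∑ i : Fin e, A * (((shrA x F s p).card : ℝ)
          * (shrT x F i.castSucc (s i.castSucc + (m - l)) p).card
          / (shrT x F i.castSucc (s i.castSucc) p).card))
      ≤ (e : ℝ) * A * (shp (e + 1) l).card * F.card := by
    have h1 : ∀ s ∈ shp (e + 1) l, ∑ p ∈ F, ∑ i : Fin e, A * (((shrA x F s p).card : ℝ)
          * (shrT x F i.castSucc (s i.castSucc + (m - l)) p).card
          / (shrT x F i.castSucc (s i.castSucc) p).card) ≤ (e : ℝ) * A * F.card := by
      intro s hs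
      rw [Finset.sum_comm]
      have h2 : ∀ i ∈ (Finset.univ : Finset (Fin e)), ∑ p ∈ F,
          A * (((shrA x F s p).card : ℝ)
          * (shrT x F i.castSucc (s i.castSucc + (m - l)) p).card
          / (shrT x F i.castSucc (s i.castSucc) p).card) ≤ A * F.card := by
        intro i _
        rw [← Finset.mul_sum]
        exact mul_le_mul_of_nonneg_left
          (shr_key hIX hb x hx F s (hshp s hs) hlm i.castSucc) hA0.le
      have h3 := Finset.sum_le_sum h2
      rw [Finset.sum_const, Finset.card_univ, Fintype.card_fin, nsmul_eq_mul] at h3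
      linarith
    have h4 := Finset.sum_le_sum h1
    rw [Finset.sum_const, nsmul_eq_mul] at h4
    linarith
  have hhots : ∑ s ∈ shp (e + 1) l, ∑ p ∈ F, (if hot s p then (b : ℝ) ^ (m - l) else 0)
      ≤ (b : ℝ) ^ (m - l) * (((m - l : ℕ) : ℝ) * (Real.log F.card / Real.log A)) ^ e
        * F.card := by
    rw [Finset.sum_comm]
    have h1 : ∀ p ∈ F, ∑ s ∈ shp (e + 1) l, (if hot s p then (b : ℝ) ^ (m - l) else 0)
        ≤ (b : ℝ) ^ (m - l) * (((m - l : ℕ) : ℝ) * (Real.log F.card / Real.log A)) ^ e := by
      intro p hp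
      rw [← Finset.sum_filter, Finset.sum_const, nsmul_eq_mul, mul_comm]
      exact mul_le_mul_of_nonneg_left (hhot p hp) (by positivity)
    have h2 := Finset.sum_le_sum h1
    rw [Finset.sum_const, nsmul_eq_mul] at h2
    linarith
  have hgoal : ∑ s ∈ shp (e + 1) l, ∑ p ∈ F, ((shrA x F s p).card : ℝ)
      ≤ ((((e + 1 : ℕ) : ℝ) - 1) * A * (shp (e + 1) l).card +
        (b : ℝ) ^ (m - l) * (((m - l : ℕ) : ℝ)
          * (Real.log F.card / Real.log A)) ^ (e + 1 - 1)) * F.card := by
    have h1 : (((e + 1 : ℕ) : ℝ) - 1) = e := by push_cast; ring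
    rw [h1, Nat.add_sub_cancel, add_mul]
    linarith
  exact hgoal

end Pool.Agent.Helper37.SU
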